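import Pool.Agent.helper81.NW.Spec

/-!
# Row nw:AED (MP_133bfc_co)
-/

set_option autoImplicit false

namespace Pool.Agent.helper81.NW

open Pool.Agent.helper84.NR
open scoped Classical
open Finset

/-- An edge of a face `A` at `x` with another face in the class of `g0` (a class without faces at `x` or `y`)
is on no face at `y`. -/
theorem AED_not {V F : Type} (M : PMap V F) (x y : V)
    (hne : ∀ f, ¬ (OnV M.toCyc f x ∧ OnV M.toCyc f y)) (g0 : F) (hoth : oth M x y g0)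
    (e : Sym2 V) (A g : F) (hA : OnV M.toCyc A x) (hAe : OnE M.toCyc A e)
    (hge : OnE M.toCyc g e) (hgc : CL M x y g g0) : ¬ onF M y e := by
  rintro ⟨B, hB, hBe⟩
  have hgA : g ≠ A := by
    intro h
    rw [h] at hgc
    exact hoth.1 A hA hgc
  obtain ⟨g', hg', hg'e, hall⟩ := M.two e A hAe
  have h1 : g = g' := (hall g hge).resolve_left hgA
  rcases hall B hBe with h | h
  · rw [h] at hB
    exact hne A ⟨hA, hB⟩
  · rw [← h1] at h
    rw [h] at hB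
    exact hoth.2 g hB hgc

/-- The statement of `AED_stmt` for one map. -/
theorem AED_aux (hINT : INT_stmt) (hSYW : SYW_stmt) (hWDN : WDN_stmt) (hVXW : VXW_stmt)
    (V F : Type) [Fintype V] [Fintype F] (M : PMap V F) (x y : V)
    (hne : ∀ f, ¬ (OnV M.toCyc f x ∧ OnV M.toCyc f y)) (g0 : F) (hoth : oth M x y g0) :
    ∃ A i g, OnV M.toCyc A x ∧ inb M y x A i ∧ ¬ onF M y s(ww M x A i, ww M x A (i + 1)) ∧
      OnE M.toCyc g s(ww M x A i, ww M x A (i + 1)) ∧ CL M x y g g0 := by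
  have hne' : ∀ f, ¬ (OnV M.toCyc f y ∧ OnV M.toCyc f x) := fun f h => hne f ⟨h.2, h.1⟩
  obtain ⟨-, hCLs, hoths⟩ := hSYW V F M x y
  obtain ⟨A0, hA0⟩ := M.cover x
  have hA0n : ¬ CL M x y A0 g0 := hoth.1 A0 hA0
  obtain ⟨e, f, g, hfe, hge, hf, hg⟩ : ∃ e f g, OnE M.toCyc f e ∧ OnE M.toCyc g e ∧
      CL M x y f g0 ∧ ¬ CL M x y g g0 := by
    by_contra hcon
    apply hA0n
    refine M.conn {f | CL M x y f g0} ?_ g0 A0 rfl
    intro e f g h1 h2 h3
    by_contra h4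
    exact hcon ⟨e, f, g, h1, h2, h3, h4⟩
  have hU : UU M x y e := by
    by_contra hU
    apply hg
    have h5 : CL M x y g f := Quot.sound ⟨e, hU, hge, hfe⟩
    exact h5.trans hf
  rcases hU with ⟨B, hB, k, hk, he⟩ | ⟨A, hA, i, hi, he⟩
  · rw [he] at hfe hge
    have hBe : OnE M.toCyc B s(ww M y B k, ww M y B (k + 1)) := ⟨st M y B + k, rfl⟩
    have hnx : ¬ onF M x s(ww M y B k, ww M y B (k + 1)) :=
      AED_not M y x hne' g0 ((hoths g0).1 hoth) _ B f hB hBe hfe ((hCLs f g0).1 hf)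
    have hfB : f ≠ B := by
      intro h
      rw [h] at hf
      exact hoth.2 B hB hf
    obtain ⟨k1, -, -, hgp, g', hg'B, hg'e, hg'c⟩ := hWDN V F M x y hne B hB k hk hnx f hfB hfe
    have hsg : sgE M x y s(ww M y B k1, ww M y B (k1 + 1)) :=
      ⟨B, hB, k1, ⟨⟨k1, le_refl _, hgp.1⟩, hgp.2.1⟩, rfl⟩
    obtain ⟨-, hyn, hon, -, -⟩ := (hINT V F M x y hne).2.2 _ hsg
    have hsv : shv M y x (ww M y B k1) := by
      obtain ⟨-, -, A1, hA1, hA1v⟩ := hgp.1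
      exact ⟨⟨B, hB, st M y B + k1, rfl⟩, A1, hA1, hA1v⟩
    obtain ⟨A, i, g1, hA, hi, -, hny, hg1e, hg1c⟩ := hVXW V F M y x hne' g0 ((hoths g0).1 hoth)
      (ww M y B k1) hsv s(ww M y B k1, ww M y B (k1 + 1)) (Sym2.mem_mk_left _ _) hyn hon
      ⟨g', hg'e, (hCLs g' g0).1 (hg'c.trans hf)⟩
    exact ⟨A, i, g1, hA, hi, hny, hg1e, (hCLs g1 g0).2 hg1c⟩
  · rw [he] at hfe hge
    have hAe : OnE M.toCyc A s(ww M x A i, ww M x A (i + 1)) := ⟨st M x A + i, rfl⟩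
    exact ⟨A, i, f, hA, hi, AED_not M x y hne g0 hoth _ A f hA hAe hfe hf, hfe, hf⟩

/-- Row AED. -/
theorem AED (hINT : INT_stmt) (hSYW : SYW_stmt) (hWDN : WDN_stmt) (hVXW : VXW_stmt) :
    AED_stmt := by
  intro V F _ _ M x y hne g0 hoth
  exact AED_aux hINT hSYW hWDN hVXW V F M x y hne g0 hoth

end Pool.Agent.helper81.NW
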